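import Mathlib
import Pool.Agent.W218.SI.Dense

set_option autoImplicit false

/-!
Primes `|n^2 + a_i|` (`i = 1, ..., k`) for `n` in an arbitrary set of positive density in `[1, x]`, for a positive
proportion of the vectors of shifts `a_i = s_i b_i` of given signs with `b_i` in arbitrary short intervals
`(A_i, A_i + H_i]`, `H_i ≥ A_i^θ`: the number of such `n` has the expected order of magnitude, from `x` equal to a
constant times the product of the `log A_i` on.
-/

namespace Pool.Agent.Results.MP_391708_nt.DenseSetsShortIntervals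

open Finset

/-- the number of `n ∈ T` such that all `|n^2 + a_i|` are prime -/
def P {k : ℕ} (T : Finset ℕ) (a : Fin k → ℤ) : ℕ :=
  (T.filter (fun n : ℕ => ∀ i, ((n : ℤ) ^ 2 + a i).natAbs.Prime)).card

lemma val_eq {s : ℤ} (hs : s = 1 ∨ s = -1) {n b A : ℕ} (h1 : 2 * n ^ 2 ≤ A) (h2 : A < b) :
    (s * (n : ℤ) ^ 2 + b).toNat = ((n : ℤ) ^ 2 + s * b).natAbs := by
  have h3 : 2 * (n : ℤ) ^ 2 ≤ A := by exact_mod_cast h1
  have h4 : 0 ≤ (n : ℤ) ^ 2 := by positivity
  rcases hs with h | h <;> subst h <;> omega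

open Classical in
theorem result : ∃ θ : ℝ, 0 < θ ∧ θ < 1 ∧ ∀ k : ℕ, 1 ≤ k → ∀ s : Fin k → ℤ, (∀ i, s i = 1 ∨ s i = -1) →
    ∀ c ρ : ℝ, 0 < c → 0 < ρ →
    ∃ κ : ℝ, 0 < κ ∧ ∃ A₀ : ℕ, ∀ A H : Fin k → ℕ, (∀ i, A₀ ≤ A i) → (∀ i, (A i : ℝ) ^ θ ≤ H i) →
    (∀ i, H i ≤ A i) → ∀ x : ℕ, c * ∏ i, Real.log (A i) ≤ x → (∀ i, 2 * x ^ 2 ≤ A i) →
    ∀ T : Finset ℕ, T ⊆ Icc 1 x → ρ * x ≤ T.card →
    κ * ∏ i, (H i : ℝ) ≤ (((Fintype.piFinset (fun i : Fin k => Ioc (A i) (A i + H i))).filter (fun b =>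
      (∀ i, ∀ m : ℤ, s i * b i ≠ -m ^ 2) ∧
      κ * (T.card / ∏ i, Real.log (A i)) ≤ P T (fun i => s i * b i) ∧
      κ * P T (fun i => s i * b i) ≤ T.card / ∏ i, Real.log (A i))).card : ℝ) := by
  obtain ⟨δ, hδ, hδ1, hmain⟩ := Pool.Agent.W218.SI.shortI
  refine ⟨1 - δ, by linarith, by linarith, fun k hk s hs c ρ hc hρ => ?_⟩
  obtain ⟨κ, hκ, X₀, hX₀, h⟩ := hmain k hk s hs (fun _ => 2) (fun _ => by norm_num) c ρ hc hρ
  refine ⟨κ, hκ, max X₀ ⌈Real.exp (3 / c)⌉₊, ?_⟩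
  intro A H hA hAH hHA x hcx hxA T hT hTc
  have hAX : ∀ i, X₀ ≤ A i := fun i => (le_max_left _ _).trans (hA i)
  have hA4 : ∀ i, 4 ≤ A i := fun i => hX₀.trans (hAX i)
  have h4 : (4 : ℝ) ≤ (max X₀ ⌈Real.exp (3 / c)⌉₊ : ℕ) := by exact_mod_cast hX₀.trans (le_max_left _ _)
  have hl := Pool.Agent.W218.SI.log_prod_ge hk (by linarith) hA
  have hYl : 3 / c ≤ Real.log ((max X₀ ⌈Real.exp (3 / c)⌉₊ : ℕ) : ℝ) := by
    rw [Real.le_log_iff_exp_le (by linarith)]
    exact (Nat.le_ceil _).trans (by exact_mod_cast le_max_right _ _)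
  have hx3 : (3 : ℝ) ≤ x := by
    have h1 := hYl.trans hl
    rw [div_le_iff₀ hc] at h1
    linarith
  have hx3' : 3 ≤ x := by exact_mod_cast hx3
  have hTpos : (0 : ℝ) < T.card := lt_of_lt_of_le (by positivity) hTc
  have hL0 : 0 < ∏ i, Real.log (A i : ℝ) := prod_pos fun i _ => Real.log_pos (by
    have := hA4 i
    exact_mod_cast (by omega : 1 < A i))
  refine (h A H hAX hAH hHA x hcx hxA T hT hTc).trans ?_
  have hsub : (Fintype.piFinset (fun i : Fin k => Ioc (A i) (A i + H i))).filter (fun b =>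
      κ * T.card / (∏ i, Real.log (A i)) ≤
        Pool.Agent.W218.PF.primeS (Pool.Agent.W218.SI.mon s (fun _ => 2)) b T ∧
      κ * Pool.Agent.W218.PF.primeS (Pool.Agent.W218.SI.mon s (fun _ => 2)) b T ≤
        T.card / (∏ i, Real.log (A i))) ⊆
      (Fintype.piFinset (fun i : Fin k => Ioc (A i) (A i + H i))).filter (fun b =>
      (∀ i, ∀ m : ℤ, s i * b i ≠ -m ^ 2) ∧
      κ * (T.card / ∏ i, Real.log (A i)) ≤ P T (fun i => s i * b i) ∧
      κ * P T (fun i => s i * b i) ≤ T.card / ∏ i, Real.log (A i)) := by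
    intro b hb
    rw [mem_filter] at hb ⊢
    obtain ⟨hbox, hb1, hb2⟩ := hb
    have hbi := fun i => mem_Ioc.1 (Fintype.mem_piFinset.1 hbox i)
    have hval : ∀ n ∈ T, ∀ i, (Pool.Agent.W218.SI.mon s (fun _ => 2) i n + b i).toNat =
        ((n : ℤ) ^ 2 + s i * b i).natAbs := by
      intro n hn i
      change (s i * (n : ℤ) ^ 2 + (b i : ℤ)).toNat = _
      refine val_eq (A := A i) (hs i) ?_ (hbi i).1
      have hn' := (mem_Icc.1 (hT hn)).2
      have hxi := hxA i
      have h5 : n ^ 2 ≤ x ^ 2 := Nat.pow_le_pow_left hn' 2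
      omega
    have hP : Pool.Agent.W218.PF.primeS (Pool.Agent.W218.SI.mon s (fun _ => 2)) b T =
        P T (fun i => s i * b i) := by
      unfold Pool.Agent.W218.PF.primeS P
      congr 1
      apply filter_congr
      intro n hn
      apply forall_congr'
      intro i
      rw [hval n hn i]
    rw [hP] at hb1 hb2
    refine ⟨hbox, ?_, by rw [← mul_div_assoc]; exact hb1, hb2⟩
    intro i m hm
    have hpos : (0 : ℝ) < P T (fun i => s i * b i) := lt_of_lt_of_le (by positivity) hb1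
    have hpos' : 0 < P T (fun i => s i * b i) := by exact_mod_cast hpos
    unfold P at hpos'
    rw [card_pos] at hpos'
    obtain ⟨n, hn⟩ := hpos'
    rw [mem_filter] at hn
    have h5 := hn.2 i
    have hn' := mem_Icc.1 (hT hn.1)
    simp only at h5
    rw [hm] at h5
    -- a = -m², so |n² - m²| is prime
    set M := m.natAbs with hM
    have hMm : ((M : ℕ) : ℤ) ^ 2 = m ^ 2 := by rw [hM]; exact Int.natAbs_sq m
    have hbM : b i = M ^ 2 := by
      rcases hs i with h6 | h6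
      · rw [h6, one_mul] at hm
        have h7 : (0 : ℤ) ≤ m ^ 2 := sq_nonneg m
        have h8 := (hbi i).1
        omega
      · rw [h6] at hm
        have h9 : ((b i : ℕ) : ℤ) = ((M ^ 2 : ℕ) : ℤ) := by
          push_cast
          rw [hMm]; linarith
        exact_mod_cast h9
    have hMx : x + 1 < M := by
      by_contra hcon
      push Not at hcon
      have h6 : M ^ 2 ≤ (x + 1) ^ 2 := Nat.pow_le_pow_left hcon 2
      have h7 := (hbi i).1
      have h8 := hxA i
      nlinarith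
    have hfac : ((n : ℤ) ^ 2 + -m ^ 2).natAbs = (M - n) * (M + n) := by
      have h6 : ((n : ℤ) ^ 2 + -m ^ 2) = -(((M - n : ℕ) : ℤ) * ((M + n : ℕ) : ℤ)) := by
        rw [← hMm]
        push_cast [show n ≤ M by omega]
        ring
      rw [h6, Int.natAbs_neg, Int.natAbs_mul, Int.natAbs_natCast, Int.natAbs_natCast]
    rw [hfac] at h5
    exact Nat.not_prime_mul (by omega) (by omega) h5
  exact_mod_cast card_le_card hsub

end Pool.Agent.Results.MP_391708_nt.DenseSetsShortIntervals
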