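import Pool.Agent.W218.PG.QI

set_option autoImplicit false

/-!
Primes `|n^2 + a|`, `n ≤ x`, for a positive proportion of the `a` with `A < |a| ≤ 2A`, of either sign, with the exact
constant `h_a` of Hardy and Littlewood, uniformly for `c log A ≤ x ≤ (κ A)^(1/2)`; and the same for `k` shifts
simultaneously.
-/

namespace Pool.Agent.Results.MP_391708_nt.InitialSegmentExact

open Finset Filter Topology

/-- the number of `1 ≤ n ≤ x` such that all `|n^2 + a_i|` are prime -/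
def P {k : ℕ} (a : Fin k → ℤ) (x : ℕ) : ℕ :=
  ((Icc 1 x).filter (fun n : ℕ => ∀ i, ((n : ℤ) ^ 2 + a i).natAbs.Prime)).card

/-- the product of `1 - (-a|w)/(w-1)` over the odd primes `w ≤ N` -/
noncomputable def H (a : ℤ) (N : ℕ) : ℝ :=
  ∏ w ∈ (Ioc 2 N).filter Nat.Prime, (1 - (jacobiSym (-a) w : ℝ) / (w - 1))

/-- the number of residues `r` mod `p` such that `p` divides `r^2 + a_i` for some `i` -/
def nu {k : ℕ} (a : Fin k → ℤ) (p : ℕ) : ℕ := ((range p).filter (fun r : ℕ => ∃ i, (p : ℤ) ∣ (r : ℤ) ^ 2 + a i)).card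

/-- the product over the primes `p ≤ z` of `(1 - 1/p)^(-k) (1 - nu(p)/p)` -/
noncomputable def HL {k : ℕ} (a : Fin k → ℤ) (z : ℕ) : ℝ :=
  ∏ p ∈ (range (z + 1)).filter Nat.Prime, (((1 - 1 / (p : ℝ)) ^ k)⁻¹ * (1 - (nu a p : ℝ) / p))

open Pool.Agent.W218.PG Pool.Agent.W468.ConjF in
lemma PJ_H (s b : ℤ) (N : ℕ) : PJ (0 ^ 2 - 4 * s * b) 2 N = H (s * b) N := by
  unfold PJ H
  apply prod_congr rfl
  intro p hp
  rw [mem_filter, mem_Ioc] at hp
  have e : (0 ^ 2 - 4 * s * b : ℤ) = 2 ^ 2 * (-(s * b)) := by ring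
  have hc : (2 : ℤ).gcd p = 1 := by
    have h1 : Nat.Coprime 2 p := (Nat.coprime_primes Nat.prime_two hp.2).2 (by omega)
    exact h1
  rw [e, jacobiSym.mul_left, jacobiSym.sq_one' hc, one_mul]

lemma natAbs_eq {s : ℤ} (hs : s = 1 ∨ s = -1) {t b : ℤ} (h : (s * t ^ 2 + b).toNat.Prime) :
    (t ^ 2 + s * b).natAbs.Prime := by
  have h0 : 0 < s * t ^ 2 + b := by
    by_contra h1
    rw [Int.toNat_of_nonpos (by omega)] at h
    exact Nat.not_prime_zero h
  have h1 : (t ^ 2 + s * b).natAbs = (s * t ^ 2 + b).toNat := by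
    rcases hs with h2 | h2 <;> subst h2 <;> omega
  rw [h1]; exact h

lemma dvd_iff {s : ℤ} (hs : s = 1 ∨ s = -1) (p : ℤ) (t b : ℤ) :
    p ∣ s * t ^ 2 + b ↔ p ∣ t ^ 2 + s * b := by
  rcases hs with h2 | h2
  · subst h2; rw [one_mul, one_mul]
  · subst h2
    rw [← dvd_neg]
    have : -(-1 * t ^ 2 + b) = t ^ 2 + -1 * b := by ring
    rw [this]

open Classical in
theorem result :
    (∀ s : ℤ, s = 1 ∨ s = -1 → ∀ c : ℝ, 0 < c → ∀ θ : ℝ, θ < 1 → ∃ κ : ℝ, 0 < κ ∧ ∃ A₀ : ℕ, ∀ A : ℕ, A₀ ≤ A →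
      ∀ x : ℕ, c * Real.log A ≤ x → (x : ℝ) ^ 2 ≤ κ * A →
      κ * A ≤ (((Ioc A (2 * A)).filter (fun b : ℕ => (∀ m : ℤ, s * b ≠ -m ^ 2) ∧
        ∃ h : ℝ, 0 < h ∧ Tendsto (H (s * b)) atTop (𝓝 h) ∧
          θ * h * (x / Real.log A) ≤ P (fun _ : Fin 1 => s * b) x ∧
          κ * (x / Real.log A) ≤ P (fun _ : Fin 1 => s * b) x)).card : ℝ)) ∧
    (∀ k : ℕ, 1 ≤ k → ∀ s : Fin k → ℤ, (∀ i, s i = 1 ∨ s i = -1) → ∀ c : ℝ, 0 < c → ∀ θ : ℝ, θ < 1 →
      ∃ κ : ℝ, 0 < κ ∧ ∀ z : ℕ, ∃ A₀ : ℕ, ∀ A : ℕ, A₀ ≤ A →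
      ∀ x : ℕ, c * Real.log A ^ k ≤ x → (x : ℝ) ^ 2 ≤ κ * A →
      κ * A ^ k ≤ (((Fintype.piFinset (fun _ : Fin k => Ioc A (2 * A))).filter (fun b =>
        θ * HL (fun i => s i * (b i : ℤ)) z * (x / Real.log A ^ k) ≤ P (fun i => s i * (b i : ℤ)) x ∧
        κ * (x / Real.log A ^ k) ≤ P (fun i => s i * (b i : ℤ)) x)).card : ℝ)) := by
  constructor
  · intro s hs c hc θ hθ
    obtain ⟨κ, hκ, x0, h⟩ := Pool.Agent.W218.PG.quadI s 0 hs c hc θ hθ
    refine ⟨min κ 1, by positivity, ⌈Real.exp ((x0 + 1 : ℕ) / c)⌉₊, fun A hA x hcx hxA => ?_⟩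
    have hA1 : Real.exp ((x0 + 1 : ℕ) / c) ≤ A := (Nat.le_ceil _).trans (by exact_mod_cast hA)
    have hA0 : (0 : ℝ) < A := lt_of_lt_of_le (Real.exp_pos _) hA1
    have hlA : ((x0 + 1 : ℕ) : ℝ) / c ≤ Real.log A := by
      rwa [Real.le_log_iff_exp_le hA0]
    have hx1 : x0 + 1 ≤ x := by
      rw [div_le_iff₀ hc] at hlA
      have : ((x0 + 1 : ℕ) : ℝ) ≤ x := by linarith
      exact_mod_cast this
    have hxr : (1 : ℝ) ≤ x := by exact_mod_cast (by omega : 1 ≤ x)
    have hxA' : (x : ℝ) ^ 2 ≤ A := by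
      refine hxA.trans ?_
      calc min κ 1 * (A : ℝ) ≤ 1 * A := mul_le_mul_of_nonneg_right (min_le_right _ _) hA0.le
        _ = A := one_mul _
    have hxA1 : x ≤ A := by
      have : (x : ℝ) ≤ A := by nlinarith
      exact_mod_cast this
    have h1 := h x (by omega) A hxA1 hcx (by
      intro t ht1 ht2
      have h2 : ((s * (t : ℤ) ^ 2 + 0 * t : ℤ) : ℝ) = s * (t : ℝ) ^ 2 := by push_cast; ring
      have h3 : |(s : ℝ)| = 1 := by
        rcases hs with h | h <;> rw [h] <;> norm_num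
      rw [h2, abs_mul, h3, one_mul, abs_of_nonneg (by positivity)]
      have h4 : (t : ℝ) ≤ x := by exact_mod_cast ht2
      calc (t : ℝ) ^ 2 ≤ (x : ℝ) ^ 2 := by gcongr
        _ ≤ min κ 1 * A := hxA
        _ ≤ κ * A := mul_le_mul_of_nonneg_right (min_le_left _ _) hA0.le)
    refine le_trans (mul_le_mul_of_nonneg_right (min_le_left _ _) hA0.le) (h1.trans ?_)
    have hsub : (Ioc A (2 * A)).filter (fun b : ℕ => ¬ IsSquare ((0 : ℤ) ^ 2 - 4 * s * (b : ℤ)) ∧
        (¬ (2 : ℤ) ∣ 0 → ¬ (2 : ℤ) ∣ (b : ℤ)) ∧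
        ∃ K : ℝ, 0 < K ∧ Tendsto (fun N => Pool.Agent.W468.ConjF.PJ ((0 : ℤ) ^ 2 - 4 * s * (b : ℤ)) 2 N) atTop (𝓝 K) ∧
          θ * (Pool.Agent.W218.PG.e2 0 * K) * (x / Real.log A) ≤ Pool.Agent.W218.PG.cq s 0 b x ∧
          κ * (x / Real.log A) ≤ Pool.Agent.W218.PG.cq s 0 b x) ⊆
        (Ioc A (2 * A)).filter (fun b : ℕ => (∀ m : ℤ, s * b ≠ -m ^ 2) ∧
        ∃ h : ℝ, 0 < h ∧ Tendsto (H (s * b)) atTop (𝓝 h) ∧
          θ * h * (x / Real.log A) ≤ P (fun _ : Fin 1 => s * b) x ∧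
          min κ 1 * (x / Real.log A) ≤ P (fun _ : Fin 1 => s * b) x) := by
      intro b hb
      rw [mem_filter] at hb ⊢
      obtain ⟨hbI, hsq, -, K, hK0, hK, h2, h3⟩ := hb
      have hcnt : (Pool.Agent.W218.PG.cq s 0 b x : ℝ) ≤ P (fun _ : Fin 1 => s * b) x := by
        have : Pool.Agent.W218.PG.cq s 0 b x ≤ P (fun _ : Fin 1 => s * b) x := by
          unfold Pool.Agent.W218.PG.cq P
          apply card_le_card
          intro t ht
          rw [mem_filter] at ht ⊢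
          refine ⟨ht.1, fun _ => ?_⟩
          apply natAbs_eq hs
          have := ht.2
          rwa [zero_mul, add_zero] at this
        exact_mod_cast this
      refine ⟨hbI, ?_, K, hK0, ?_, ?_, ?_⟩
      · intro m hm
        apply hsq
        refine ⟨2 * m, ?_⟩
        have : (0 : ℤ) ^ 2 - 4 * s * (b : ℤ) = -4 * (s * b) := by ring
        rw [this, hm]; ring
      · refine hK.congr (fun N => ?_)
        exact PJ_H s b N
      · refine le_trans (le_of_eq ?_) (h2.trans hcnt)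
        have : Pool.Agent.W218.PG.e2 0 = 1 := by unfold Pool.Agent.W218.PG.e2; simp
        rw [this, one_mul]
      · refine le_trans ?_ (h3.trans hcnt)
        have hlA0 : 0 ≤ Real.log A := le_trans (by positivity) hlA
        exact mul_le_mul_of_nonneg_right (min_le_left _ _) (by positivity)
    exact_mod_cast card_le_card hsub
  · intro k hk s hs c hc θ hθ
    obtain ⟨κ, hκ, h⟩ := Pool.Agent.W218.PG.mainI k hk (fun i => Pool.Agent.W218.PG.Fq (s i) 0)
      (fun i => by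
        rw [Pool.Agent.W218.PG.Fq_deg (s i) 0 (by rcases hs i with h | h <;> rw [h] <;> norm_num)]
        norm_num) c hc θ hθ
    refine ⟨min κ 1, by positivity, fun z => ?_⟩
    obtain ⟨x0, h⟩ := h z
    refine ⟨⌈Real.exp (1 + (x0 + 1 : ℕ) / c)⌉₊, fun A hA x hcx hxA => ?_⟩
    have hA1 : Real.exp (1 + (x0 + 1 : ℕ) / c) ≤ A := (Nat.le_ceil _).trans (by exact_mod_cast hA)
    have hA0 : (0 : ℝ) < A := lt_of_lt_of_le (Real.exp_pos _) hA1
    have hlA : 1 + ((x0 + 1 : ℕ) : ℝ) / c ≤ Real.log A := by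
      rwa [Real.le_log_iff_exp_le hA0]
    have hlA1 : 1 ≤ Real.log A := by
      have : (0 : ℝ) ≤ ((x0 + 1 : ℕ) : ℝ) / c := by positivity
      linarith
    have hx1 : x0 + 1 ≤ x := by
      have h1 : ((x0 + 1 : ℕ) : ℝ) / c ≤ Real.log A ^ k := by
        calc ((x0 + 1 : ℕ) : ℝ) / c ≤ Real.log A := by linarith
          _ ≤ Real.log A ^ k := le_self_pow₀ hlA1 (by omega)
      rw [div_le_iff₀ hc] at h1
      have : ((x0 + 1 : ℕ) : ℝ) ≤ x := by linarith
      exact_mod_cast this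
    have hxr : (1 : ℝ) ≤ x := by exact_mod_cast (by omega : 1 ≤ x)
    have hxA' : (x : ℝ) ^ 2 ≤ A := by
      refine hxA.trans ?_
      calc min κ 1 * (A : ℝ) ≤ 1 * A := mul_le_mul_of_nonneg_right (min_le_right _ _) hA0.le
        _ = A := one_mul _
    have hxA1 : x ≤ A := by
      have : (x : ℝ) ≤ A := by nlinarith
      exact_mod_cast this
    have h1 := h x (by omega) A hxA1 hcx (by
      intro i t ht1 ht2
      rw [Pool.Agent.W218.PG.Fq_eval]
      have h2 : ((s i * (t : ℤ) ^ 2 + 0 * t : ℤ) : ℝ) = s i * (t : ℝ) ^ 2 := by push_cast; ring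
      have h3 : |(s i : ℝ)| = 1 := by
        rcases hs i with h | h <;> rw [h] <;> norm_num
      rw [h2, abs_mul, h3, one_mul, abs_of_nonneg (by positivity)]
      have h4 : (t : ℝ) ≤ x := by exact_mod_cast ht2
      calc (t : ℝ) ^ 2 ≤ (x : ℝ) ^ 2 := by gcongr
        _ ≤ min κ 1 * A := hxA
        _ ≤ κ * A := mul_le_mul_of_nonneg_right (min_le_left _ _) hA0.le)
    refine le_trans (mul_le_mul_of_nonneg_right (min_le_left _ _) (by positivity)) (h1.trans ?_)
    have hsub : (Fintype.piFinset (fun _ : Fin k => Ioc A (2 * A))).filter (fun b =>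
        θ * Pool.Agent.W218.PG.EI (fun i => Pool.Agent.W218.PG.Fq (s i) 0) b z * (x / Real.log A ^ k) ≤
          Pool.Agent.W218.PG.cntI (fun i => Pool.Agent.W218.PG.Fq (s i) 0) b x ∧
        κ * (x / Real.log A ^ k) ≤ Pool.Agent.W218.PG.cntI (fun i => Pool.Agent.W218.PG.Fq (s i) 0) b x) ⊆
        (Fintype.piFinset (fun _ : Fin k => Ioc A (2 * A))).filter (fun b =>
        θ * HL (fun i => s i * (b i : ℤ)) z * (x / Real.log A ^ k) ≤ P (fun i => s i * (b i : ℤ)) x ∧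
        min κ 1 * (x / Real.log A ^ k) ≤ P (fun i => s i * (b i : ℤ)) x) := by
      intro b hb
      rw [mem_filter] at hb ⊢
      obtain ⟨hbI, h2, h3⟩ := hb
      have hcnt : (Pool.Agent.W218.PG.cntI (fun i => Pool.Agent.W218.PG.Fq (s i) 0) b x : ℝ) ≤
          P (fun i => s i * (b i : ℤ)) x := by
        have : Pool.Agent.W218.PG.cntI (fun i => Pool.Agent.W218.PG.Fq (s i) 0) b x ≤
            P (fun i => s i * (b i : ℤ)) x := by
          unfold Pool.Agent.W218.PG.cntI P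
          apply card_le_card
          intro t ht
          rw [mem_filter] at ht ⊢
          refine ⟨ht.1, fun i => ?_⟩
          apply natAbs_eq (hs i)
          have := ht.2 i
          rw [Pool.Agent.W218.PG.Fq_eval, zero_mul, add_zero] at this
          exact this
        exact_mod_cast this
      have hnu : ∀ p : ℕ, Pool.Agent.W218.PG.wI
          (Pool.Agent.W218.PG.Vf (fun i => Pool.Agent.W218.PG.Fq (s i) 0) b) p = nu (fun i => s i * (b i : ℤ)) p := by
        intro p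
        unfold Pool.Agent.W218.PG.wI nu Pool.Agent.W218.PG.Vf
        congr 1
        ext r
        simp only [mem_filter]
        apply and_congr_right
        intro _
        apply exists_congr
        intro i
        rw [Pool.Agent.W218.PG.Fq_eval, zero_mul, add_zero]
        exact dvd_iff (hs i) _ _ _
      have hE : Pool.Agent.W218.PG.EI (fun i => Pool.Agent.W218.PG.Fq (s i) 0) b z =
          HL (fun i => s i * (b i : ℤ)) z := by
        unfold Pool.Agent.W218.PG.EI HL Pool.Agent.W218.PF.PS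
        apply prod_congr rfl
        intro p _
        rw [hnu p]
      rw [hE] at h2
      refine ⟨hbI, h2.trans hcnt, le_trans ?_ (h3.trans hcnt)⟩
      exact mul_le_mul_of_nonneg_right (min_le_left _ _) (by positivity)
    exact_mod_cast card_le_card hsub

end Pool.Agent.Results.MP_391708_nt.InitialSegmentExact
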