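import Mathlib
import Pool.Agent.W78.EG.Fin

/-!
The numbers of prime factors of the two factors `d`, `d'` of the integers `d d' = m^2 + 2` are
equidistributed modulo every `k`, at almost all scales, in all windows and residue classes.

Method: pairs of elements of determinant `1` in the imaginary quadratic order of class number one,
Tao's entropy decrement argument on the Farey tree of its primitive elements, a large sieve estimate
for prime determinants, the Matomaki-Radziwill theorem for the angles of the elements in residue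
classes, and the inversion of a multiplicative convolution.
-/

set_option autoImplicit false

namespace Pool.Agent.Results.MP_391708_nt.ShiftTwoEquidistribution

open Finset Filter ArithmeticFunction

open scoped Classical in
/-- the pairs `(d, d')` of positive integers with `s₁ X < d ≤ s₂ X`, `s₃ X < d' ≤ s₄ X` and
`d d' = m^2 + 2` for some `m ≥ 0` with `m ≡ u mod q` -/
noncomputable def Pairs (q u : ℕ) (s₁ s₂ s₃ s₄ : ℝ) (X : ℕ) : Finset (ℕ × ℕ) :=
  (Icc 1 ⌊s₂ * X⌋₊ ×ˢ Icc 1 ⌊s₄ * X⌋₊).filter (fun p => s₁ * X < p.1 ∧ s₃ * X < p.2 ∧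
    ∃ m : ℕ, p.1 * p.2 = m ^ 2 + 2 ∧ m ≡ u [MOD q])

/-- the deviation at scale `X` from the equidistribution of the residues modulo `k` of `Ω(d)` and
`Ω(d')` over the pairs with `d ≡ r mod q`, for the residues `i` and `j` -/
noncomputable def Dev (k q u r i j : ℕ) (s₁ s₂ s₃ s₄ : ℝ) (X : ℕ) : ℝ :=
  |(((Pairs q u s₁ s₂ s₃ s₄ X).filter (fun p => p.1 ≡ r [MOD q] ∧
      cardFactors p.1 ≡ i [MOD k] ∧ cardFactors p.2 ≡ j [MOD k])).card : ℝ) -
    1 / (k : ℝ) ^ 2 * (((Pairs q u s₁ s₂ s₃ s₄ X).filter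
      (fun p => p.1 ≡ r [MOD q])).card : ℝ)|

/-- Let `k, q ≥ 1`, `u ≥ 0`.

* For some `c > 0` and all large `X` at least `c X` pairs `(d, d')` of positive integers `≤ X` have a
  product `d d' = m^2 + 2` with `m ≡ u mod q`.
* For every residue class `r mod q`, all residues `i, j` modulo `k`, all `0 ≤ s₁ < s₂`,
  `0 ≤ s₃ < s₄` and every `ε > 0`: among the pairs with `d d' = m^2 + 2`, `m ≡ u mod q`,
  `d ≡ r mod q`, `s₁ X < d ≤ s₂ X`, `s₃ X < d' ≤ s₄ X`, the number of those with `Ω(d) ≡ i` and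
  `Ω(d') ≡ j mod k` differs from `1/k²` of their number by at most `ε X`, for all `X` outside a set
  of logarithmic density `0`. -/
theorem result (k q u : ℕ) (hk : 1 ≤ k) (hq : 1 ≤ q) :
    (∃ c : ℝ, 0 < c ∧ ∃ X₀ : ℕ, ∀ X : ℕ, X₀ ≤ X →
      c * X ≤ ((Pairs q u 0 1 0 1 X).card : ℝ)) ∧
    ∀ (r i j : ℕ) (s₁ s₂ s₃ s₄ : ℝ), 0 ≤ s₁ → s₁ < s₂ → 0 ≤ s₃ → s₃ < s₄ → ∀ ε : ℝ, 0 < ε →
      Tendsto (fun N : ℕ => (∑ X ∈ (Icc 1 N).filter
        (fun X : ℕ => ε * X < Dev k q u r i j s₁ s₂ s₃ s₄ X), 1 / (X : ℝ)) / Real.log N)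
        atTop (nhds 0) := by
  have h := Pool.Agent.W78.EG.fin9 (a := 1) (b := 0) (e := 2) (by norm_num)
    (by norm_num [Pool.Agent.W78.EG.disc9]) (u := u) hk hq
    (fun p : ℕ × ℕ => ∃ m : ℕ, p.1 * p.2 = m ^ 2 + 2 ∧ m ≡ u [MOD q])
    (fun p => exists_congr fun m => and_congr_left fun _ => by
      rw [one_mul, zero_mul, add_zero]
      constructor <;> intro h <;> exact_mod_cast h)
  exact h

end Pool.Agent.Results.MP_391708_nt.ShiftTwoEquidistribution
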