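import Pool.Agent.W81.R1A.Shift

/-!
The asymptotic formula of Hardy and Littlewood for the number of `n ≤ N` with `|n² + a|` prime,
with its exact constant, for almost all `a` in every interval of length at least `x (log x)^B`.
-/

set_option autoImplicit false

namespace Pool.Agent.Results.MP_391708_nt.ShortIntervalShifts

open Finset Filter

/-- `P_a(y)`: the number of `1 ≤ n ≤ y` with `|n² + a|` prime -/
noncomputable def primeCount (a : ℤ) (y : ℕ) : ℝ :=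
  (((Icc 1 y).filter (fun n : ℕ => Nat.Prime (Int.natAbs ((n : ℤ) ^ 2 + a)))).card : ℝ)

/-- the sum of `1 / log |n² + a|` over the `1 ≤ n ≤ y` with `|n² + a| ≥ 2` -/
noncomputable def logSum (a : ℤ) (y : ℕ) : ℝ :=
  ∑ n ∈ (Icc 1 y).filter (fun n : ℕ => 2 ≤ |(n : ℤ) ^ 2 + a|),
    1 / Real.log |(((n : ℤ) ^ 2 + a : ℤ) : ℝ)|

/-- `∏ (1 - (-a|w)/(w-1))` over the odd primes `w < N` -/
noncomputable def partialProd (a : ℤ) (N : ℕ) : ℝ :=
  ∏ w ∈ (range N).filter (fun w : ℕ => Nat.Prime w ∧ 2 < w),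
    (1 - ((jacobiSym (-a) w : ℤ) : ℝ) / ((w : ℝ) - 1))

open Classical in
/-- **Primes `|n² + a|`, almost all `a` of short intervals.** For all `C, U` and `ε > 0` there are
`B, X₀` such that for all `x ≥ X₀` and every interval `(a₀, a₀ + A]` of integers with
`|a₀|, A ≤ x² (log x)^C` and length `A ≥ x (log x)^B`, all integers `a` of the interval but at most
`A/(log x)^U` have the following property. If `a` is not of the form `-m²`, then the product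
`∏ (1 - (-a|w)/(w-1))` over the odd primes converges to some `h_a ≥ 1/(4 log x)`, `h_a > 0`, and
`P_a(y) = h_a (∑_{n ≤ y} 1/log|n² + a| + O*(x/(log x)^U))` uniformly for all `y ≤ x`; and for all
`x/(log x)^C ≤ y ≤ x` one has `P_a(y) = (1 + O*(ε)) (h_a/2) ∫_2^y dt/log t`. -/
theorem result (C U : ℕ) (ε : ℝ) (hε : 0 < ε) : ∃ B X0 : ℕ, ∀ x : ℕ, X0 ≤ x →
    ∀ (a0 : ℤ) (A : ℕ), |(a0 : ℝ)| ≤ (x : ℝ) ^ 2 * Real.log x ^ C → x * Real.log x ^ B ≤ A →
    (A : ℝ) ≤ (x : ℝ) ^ 2 * Real.log x ^ C →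
    ∃ Bad : Finset ℤ, (Bad.card : ℝ) ≤ A / Real.log x ^ U ∧
      ∀ a : ℤ, a0 < a → a ≤ a0 + A → a ∉ Bad → (∀ m : ℤ, a ≠ -m ^ 2) →
        ∃ h : ℝ, 0 < h ∧ Tendsto (fun N : ℕ => partialProd a N) atTop (nhds h) ∧
          1 / (4 * Real.log x) ≤ h ∧
          (∀ y : ℕ, y ≤ x →
            |primeCount a y - h * logSum a y| ≤ h * (x / Real.log x ^ U)) ∧
          ∀ y : ℕ, y ≤ x → (x : ℝ) / Real.log x ^ C ≤ y →
            |primeCount a y - h / 2 * ∫ t in (2 : ℝ)..y, 1 / Real.log t| ≤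
              ε * (h / 2 * ∫ t in (2 : ℝ)..y, 1 / Real.log t) := by
  obtain ⟨B, hB⟩ := Pool.Agent.W81.R1A.shifts C U ε hε
  obtain ⟨X0, hX0⟩ := eventually_atTop.mp hB
  refine ⟨B, X0, fun x hx a0 A ha0 hA1 hA2 => ?_⟩
  obtain ⟨Bad, hBad, hgood⟩ := hX0 x hx a0 A ha0 hA1 hA2
  refine ⟨Bad, hBad, fun a ha1 ha2 haB hsq => ?_⟩
  obtain ⟨h, h1, h2, h3, h4, h5⟩ := hgood a ha1 ha2 haB (by
    rintro ⟨m, hm⟩
    apply hsq m
    rw [sq, ← hm, neg_neg])
  exact ⟨h, h1, h2, h3, h4, h5⟩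

end Pool.Agent.Results.MP_391708_nt.ShortIntervalShifts
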